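import Pool.Agent.Helper57.U2.B
import Pool.Agent.Helper84.UC.U

/-!
Row U2 (MP_c75db0): the typed certificate with twin states gives the certificate `PCertU` of the
plain charts and the cells `CU`.
-/

set_option autoImplicit false
noncomputable section
namespace Pool.Agent.Helper57.U2

open Pool.Agent.Helper6.MONO
open Pool.Agent.Helper6.MONO.QTR (V0 e0 Qt TCell xw)
open Pool.Agent.Helper6.MONO.SV (UY D4)
open Pool.Agent.Helper21.SUP
open Pool.Agent.Helper39.C75 (IsRegion)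
open Pool.Agent.Helper39.SLT
open Pool.Agent.Helper84.UC (PCertU CU CellXU cu_of_twin)

variable {p q r : ℕ}

/-- the regions at the states which exist -/
def cutU (p q r : ℕ) (R : Bool → GS → T4 → Set V3) (i : Bool) (s : GS) (T : T4) : Set V3 :=
  {v | (DG s ∧ T.ok (ML p q r s) ∧ TJ T i) ∧ v ∈ R i s T}

theorem cutU_reg {R : Bool → GS → T4 → Set V3} {s : GS} (h : DG s) (f : Bool) (o : Option Ty)
    (i : Bool) : regU p q r (cutU p q r R) (s, f, o) i = regU p q r R (s, f, o) i := by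
  ext v
  match o with
  | some Ty.B =>
    exact ⟨fun hv => ⟨hv.1, hv.2.2⟩, fun hv => ⟨hv.1, ⟨h, trivial, fun _ => Or.inl rfl⟩, hv.2⟩⟩
  | some Ty.A =>
    exact ⟨fun hv => ⟨hv.1, hv.2.2⟩, fun hv => ⟨hv.1, ⟨h, trivial, fun _ => Or.inr rfl⟩, hv.2⟩⟩
  | some (Ty.P _) => exact Iff.rfl
  | some (Ty.Q _) => exact Iff.rfl
  | none =>
    exact ⟨fun hv => ⟨hv.1, hv.2.1, hv.2.2.1.2, hv.2.2.2.2⟩,
      fun hv => ⟨hv.1, hv.2.1, ⟨⟨h, trivial, TJ_f _⟩, hv.2.2.1⟩, ⟨⟨h, trivial, TJ_f _⟩, hv.2.2.2⟩⟩⟩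
  | some Ty.o =>
    constructor
    · rintro (⟨h1, h2, h3⟩ | ⟨h1, h2, h3⟩)
      · exact Or.inl ⟨h1, h2, h3.2⟩
      · exact Or.inr ⟨h1, h2, h3.2⟩
    · rintro (⟨h1, h2, h3⟩ | ⟨h1, h2, h3⟩)
      · exact Or.inl ⟨h1, h2, ⟨h, h2, TJ_f _⟩, h3⟩
      · exact Or.inr ⟨h1, h2, ⟨h, h2, TJ_f _⟩, h3⟩

theorem cutU_blk {Z : Sch Ty} {RM : GS → ℕ → ℂ → Matrix (Fin 3) (Fin 3) ℂ} {w : ℂ}
    {R : Bool → GS → T4 → Set V3} (h : BlkCertU Z p q r RM w (regU p q r R)) :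
    BlkCertU Z p q r RM w (regU p q r (cutU p q r R)) := by
  intro o f s m ms t hs hb i v hv
  rw [cutU_reg hs] at hv
  rw [cutU_reg (DG_sD' _ _ hs)]
  exact h o f s m ms t hs hb i v hv

/-- FROM THE TYPED CERTIFICATE TO THE PLAIN CHARTS -/
theorem TCertU.pcertU (hp : 3 ≤ p) (hq : 3 ≤ q) (hr : 3 ≤ r) {V : RV2} {e C : ℝ} {w : ℂ}
    {R : Bool → GS → T4 → Set V3} (h : TCertU V e p q r C w R) :
    PCertU V e p q r Y0 (liveT p q r) C w (regU p q r (cutU p q r R)) := by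
  refine ⟨fun σ i => isRegion_reg ?_ σ, cutU_blk h.blk, ?_, ?_, ?_, ?_, ?_, ?_, ?_, ?_⟩
  · intro s T
    by_cases hs : DG s ∧ T.ok (ML p q r s) ∧ TJ T (tI σ.2.2 i)
    · have e : cutU p q r R (tI σ.2.2 i) s T = R (tI σ.2.2 i) s T := by
        ext v
        exact ⟨fun hv => hv.2, fun hv => ⟨hs, hv⟩⟩
      rw [e]
      exact h.reg s hs.1 T _ hs.2.1 hs.2.2
    · have e : cutU p q r R (tI σ.2.2 i) s T = ∅ := by
        ext v
        exact ⟨fun hv => hs hv.1, fun hv => hv.elim⟩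
      rw [e]
      exact isRegion_empty
  · -- dead
    rintro ⟨s, f, o⟩ hl i v hv
    apply hl
    match o, hv with
    | some Ty.B, hv => exact Or.inl ⟨rfl, hv.1⟩
    | some Ty.A, hv => exact Or.inr (Or.inl ⟨rfl, hv.1⟩)
    | some (Ty.P _), hv => exact hv.elim
    | some (Ty.Q _), hv => exact hv.elim
    | none, hv => exact Or.inr (Or.inr (Or.inr ⟨rfl, hv.1, hv.2.1⟩))
    | some Ty.o, hv =>
      rcases hv with ⟨h1, h2, -⟩ | ⟨h1, h2, -⟩
      · exact Or.inr (Or.inr (Or.inl ⟨rfl, Or.inl ⟨h1, h2⟩⟩))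
      · exact Or.inr (Or.inr (Or.inl ⟨rfl, Or.inr ⟨h1, h2⟩⟩))
  · -- ref
    rintro ⟨s, f, o⟩ hs hl i
    have hs' : DG s := hs
    rw [cutU_reg hs']
    rcases hl with ⟨h1, h2⟩ | ⟨h1, h2⟩ | ⟨h1, h2⟩ | ⟨h1, h2, h3⟩
    · have h1' : o = some Ty.B := h1
      subst h1'
      by_cases h3 : ML p q r s = 3
      · rw [DG3_L hs', rG_L V h3]
        exact ⟨h2, h.refL s hs' i h3⟩
      · have h4 : 4 ≤ ML p q r s := by
          have := ML_ge hp hq hr hs'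
          omega
        rw [DG3_L hs', rG_LY V h3, DLm_yL]
        exact ⟨h2, h.ref2 s hs' i h4⟩
    · have h1' : o = some Ty.A := h1
      subst h1'
      rw [DG3_Y hs' f (by simp), rG_Y V (by simp)]
      exact ⟨h2, h.refY s hs' T4.three i trivial (fun _ => Or.inr rfl) (by decide)⟩
    · have h1' : o = some Ty.o := h1
      subst h1'
      rw [DG3_Y hs' f (by simp), rG_Y V (by simp)]
      rcases h2 with ⟨h2, h3⟩ | ⟨h2, h3⟩
      · exact Or.inl ⟨h2, h3, h.refY s hs' T4.full false h3 (TJ_f _) (by decide)⟩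
      · exact Or.inr ⟨h2, h3, h.refY s hs' T4.oth false h3 (TJ_f _) (by decide)⟩
    · have h1' : o = none := h1
      subst h1'
      rw [DG3_Y hs' f (by simp), rG_Y V (by simp), ← UY_zero V.al V.be e]
      obtain ⟨h4, h5⟩ := h.start s hs' h3 0
      exact ⟨h2, h3, h4, h5⟩
  · -- start
    intro s hs h4 i
    rw [cutU_reg hs]
    have h3 := D4_ML hp hq hr hs h4
    obtain ⟨h5, h6⟩ := h.start s hs h3 i
    exact ⟨rfl, h3, h5, h6⟩
  · intro s f hs _ i u hu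
    rw [cutU_reg hs] at hu
    exact h.slit3 s hs i u hu.2
  · intro s f k hs _ i u hu
    exact hu.elim
  · intro s f k hs _ i u hu
    exact hu.elim
  · intro s f hs _ i u hu
    rw [cutU_reg hs] at hu
    exact h.slit2 s hs i u hu.2
  · rintro ⟨s, f, o⟩ i v j hv
    obtain ⟨T, k, -, -, hT⟩ := memU_any hv
    exact h.bound s hT.1.1 T k hT.1.2.1 hT.1.2.2 v hT.2 j

/-- the cells of the quarter -/
theorem TCellU.cu (hp : 3 ≤ p) (hq : 3 ≤ q) (hr : 3 ≤ r) {x0 a b : ℝ} (h : TCellU p q r x0 a b) :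
    CU p q r x0 a b := by
  obtain ⟨C, h⟩ := h
  refine cu_of_twin ⟨C, fun w hw ha hb => ?_⟩
  obtain ⟨R, hR⟩ := h w hw ha hb
  exact ⟨_, hR.pcertU hp hq hr⟩

end Pool.Agent.Helper57.U2
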