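import Pool.Agent.Helper57.U2.D
import Pool.Agent.Helper57.U2.E
import Pool.Agent.Helper39.CT.NFH
import Pool.Agent.Helper21.CT.XQC

/-!
Row U2 (MP_c75db0): near cells with twin states: the certificate of a point, lists of cells,
modules on any line, on `x_B` (sign test), on `xA`, on a constant line.
-/

set_option autoImplicit false
set_option exponentiation.threshold 4000
noncomputable section
namespace Pool.Agent.Helper57.U2

open Pool.Agent.Helper81.MIT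
open Pool.Agent.Helper86.CX (Hm P9 VR ev Cx andB)
open Pool.Agent.Helper86.CT (LT2 Mo Mc Mq Sv Vx Cls Prog CellT Rw chkDT mk addM uM zM Alg mkCls
  clsOK xAM)
open Pool.Agent.Helper90.C75 (Vt)
open Pool.Agent.Helper86.C75 (Z)
open Pool.Agent.Helper90.KMO (zv)
open Pool.Agent.Helper90.KMT (PT TOK KTab CLT)
open Pool.Agent.Helper17.KPT (MK)
open Pool.Agent.Helper6.MONO (V3 RV2 kk mm RMb zw Kp xA LNI_mm Y0 xA_gt xA_le2 xA_max xA_swap Thr)
open Pool.Agent.Helper6.MONO.QTR (V0 e0)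
open Pool.Agent.Helper6.MID
open Pool.Agent.Helper6.PIE (z_ne)
open Pool.Agent.Helper6.PRG (giS gsF gsF_giS)
open Pool.Agent.Helper6.MTC (FCert)
open Pool.Agent.Helper21.KCE (andB_tt)
open Pool.Agent.Helper21.SUP (GS DG gM std)
open Pool.Agent.Helper21.SUP renaming nx → nxs
open Pool.Agent.Helper39.SLT (T4 ML)
open Pool.Agent.Helper39.NCL (WN wS NA)
open Pool.Agent.Helper39.NFT (Ch CBT CAll CPt sideLT sideNT sideWT_iff fam_ptT famOKT_of has_ge lbLe
  lbLe_ok modXT cld_A modXE cld_E cX)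
open Pool.Agent.Helper21.KRN (TProg PtR XM expand xOK cκ NZ KResT)
open Pool.Agent.Helper21.KTE (MZ KS wfK CLD chkDT_pt sideT)
open Pool.Agent.Helper48.NCT (IT FTT NDT chkNT chkPNT pcNT chkIT chkIT_pos ON)
open Pool.Agent.Helper57.KNB (FDT FamTOK)
open Pool.Agent.Helper21.XB (xBp thr_xBp XQD modXQ cld_Q xQM)
open Complex ComplexConjugate

variable {p q r : ℕ} {kf kr : ℕ → T4 → ℕ}

/-! ### the certificate of a point -/

/-- walls (families or single runs) and a chain for the runs of two letters -/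
def modUC (kf kr : ℕ → T4 → ℕ) (a b c : Lb) (W0 W1 W2 : WN) (cB : Ch) (BE BO : List ℕ)
    (G : TProg) (il : List IT) (sl : List ℕ) (le : List LT2) : Bool :=
  modU0 kf kr a b c BE BO G sl le && (wallU kf kr a b c W0 W1 W2 BE BO G il &&
    chnU 2 T4.two kf kr a b c cB BE BO G il)

/-- two chains -/
def modUCC (kf kr : ℕ → T4 → ℕ) (a b c : Lb) (cA cB : Ch) (BE BO : List ℕ)
    (G : TProg) (il : List IT) (sl : List ℕ) (le : List LT2) : Bool :=
  modU0 kf kr a b c BE BO G sl le && (chnU 3 T4.three kf kr a b c cA BE BO G il &&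
    chnU 2 T4.two kf kr a b c cB BE BO G il)

section

variable {z : ℂ} {K : ℕ → Hm ℝ} {G : TProg} {sl : List ℕ} {le : List LT2} {a b c : Lb}
  {BE BO : List ℕ} {il : List IT}

/-- the single tests of the forms of one numbering -/
theorem statU_fcert (ha : a.has p) (hb : b.has q) (hc : c.has r) (hz : z ≠ 0) (hz1 : z + 1 ≠ 0)
    (hP : PtR K (kR p q r) z G sl le) {kx : ℕ → T4 → ℕ} (h : statU kx a b c G sl le = true) :
    FCert V0 e0 p q r (1 / 2 ^ 10) (2 ^ 12) (zw z) (fun s T => K (kE kx p q r s T)) := by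
  unfold statU at h
  rw [List.all_eq_true, lb_rp ha, lb_rp hb, lb_rp hc] at h
  have h3 : ∀ i < 6, covRX kx (rep p) (rep q) (rep r) G i = true ∧
      covPX kx (rep p) (rep q) (rep r) G i = true ∧
      covTX kx (rep p) (rep q) (rep r) sl i = true ∧ covLX kx a b c le i = true := by
    intro i hi
    have h4 := h i (List.mem_range.2 hi)
    simpa only [Bool.and_eq_true] using h4
  exact fcertX (has_ge ha) (has_ge hb) (has_ge hc) hz hz1 hP.res (fun i hi => (h3 i hi).1)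
    (fun i hi => (h3 i hi).2.2.1) hP.neg hP.bd
    (lposX_of hz hz1 (fun i hi => (h3 i hi).2.1) hP.res) (fun i hi => (h3 i hi).2.2.2)
    (slitT_pt hP ha hb hc)

/-- THE CERTIFICATE OF A POINT from the blocks of two and three letters -/
theorem tcertU_pt (ha : a.has p) (hb : b.has q) (hc : c.has r) (hz : z ≠ 0) (hz1 : z + 1 ≠ 0)
    (hP : PtR K (kR p q r) z G sl le) (hm : modU0 kf kr a b c BE BO G sl le = true)
    (hA : HXU p q r (zw z) (KU kf kr p q r K) 3 T4.three)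
    (hB : HXU p q r (zw z) (KU kf kr p q r K) 2 T4.two) :
    TCertU V0 e0 p q r CBT (zw z) (RKU (KU kf kr p q r K)) := by
  unfold modU0 at hm
  simp only [Bool.and_eq_true] at hm
  obtain ⟨hbr, hf, hr', h4⟩ := hm
  rw [List.all_eq_true, lb_rp ha, lb_rp hb, lb_rp hc] at h4
  have hp := has_ge ha
  have hq := has_ge hb
  have hr := has_ge hc
  have hF : ∀ i, FCert V0 e0 p q r (1 / 2 ^ 10) (2 ^ 12) (zw z) (KU kf kr p q r K i) := by
    intro i
    cases i with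
    | false => exact statU_fcert ha hb hc hz hz1 hP hf
    | true => exact statU_fcert ha hb hc hz hz1 hP hr'
  refine tcertU_of (by positivity) hF (typ_certU hp hq hr ?_ ?_ ?_)
  · intro s hs T i hT hi m h4' hm v hv
    exact run_ofT hp hq hr hbr hz hz1 hP.res hs (by omega) hm
      (four_of hp hq hr hs (h4 _ (List.mem_range.2 (gsF_giS s hs).2)) hT hi h4' hm) v hv
  · intro s hs T i hT hi hT3 k v hv
    exact hA s hs T i hT hi (low_le3 _ _) hT3 k v hv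
  · intro s hs T i hT hi hl hT2 k v hv
    exact hB s hs T i hT hi hl hT2 k v hv

/-- the certificate of a point from the identities and the families of a cell -/
def PtU (p q r : ℕ) (G : TProg) (sl : List ℕ) (le : List LT2) (il : List IT) (W0 W1 W2 : WN) :
    Prop :=
  ∀ {z : ℂ}, z ≠ 0 → z + 1 ≠ 0 → ∀ {K : ℕ → Hm ℝ}, PtR K (kR p q r) z G sl le →
    (∀ x ∈ il, ∀ y ∈ x.s, ∀ v, 0 < ev (K y.k) v → 0 < ev (K x.k) v) →
    (∀ s, DG s → giS s < 3 → (wS W0 W1 W2 (giS s)).f = true → ∀ m : ℕ, ∀ v,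
      0 < ev (K (wS W0 W1 W2 (giS s)).e) v → 0 < ev (K (wS W0 W1 W2 (giS s)).x)
        ((gM (RMb p q r) s (List.replicate 2 3) (zw z) ^ (m + 1)).mulVec v)) →
    ∃ R : Bool → GS → T4 → Set V3, TCertU V0 e0 p q r CBT (zw z) R

theorem chnU_all {x : ℕ} {X : T4} {cx : Ch} (ha : a.has p) (hb : b.has q) (hc : c.has r)
    (h : chnU x X kf kr a b c cx BE BO G il = true) :
    ∀ i < 6, covCU x X kf kr (rep p) (rep q) (rep r) BE BO G il cx i = true := by
  unfold chnU at h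
  rw [List.all_eq_true, lb_rp ha, lb_rp hb, lb_rp hc] at h
  exact fun i hi => h i (List.mem_range.2 hi)

theorem modU0_br (h : modU0 kf kr a b c BE BO G sl le = true) : brOK BE BO = true := by
  unfold modU0 at h
  rw [Bool.and_eq_true] at h
  exact h.1

/-- the blocks of two letters through a chain -/
theorem hB_of_chn (ha : a.has p) (hb : b.has q) (hc : c.has r) (hz : z ≠ 0) (hz1 : z + 1 ≠ 0)
    (hP : PtR K (kR p q r) z G sl le) (hbr : brOK BE BO = true) {cB : Ch}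
    (h : chnU 2 T4.two kf kr a b c cB BE BO G il = true)
    (hI : ∀ x ∈ il, ∀ y ∈ x.s, ∀ v, 0 < ev (K y.k) v → 0 < ev (K x.k) v) :
    HXU p q r (zw z) (KU kf kr p q r K) 2 T4.two :=
  hxU_of_ch (fun h => Pool.Agent.Helper48.NCT.cut_two h) (fun kx s => kE_two kx p q r s) le_rfl
    (by norm_num) (has_ge ha) (has_ge hb) (has_ge hc) hz hz1 hP.res hbr (chnU_all ha hb hc h) hI

/-- the blocks of three letters through a chain -/
theorem hA_of_chn (ha : a.has p) (hb : b.has q) (hc : c.has r) (hz : z ≠ 0) (hz1 : z + 1 ≠ 0)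
    (hP : PtR K (kR p q r) z G sl le) (hbr : brOK BE BO = true) {cA : Ch}
    (h : chnU 3 T4.three kf kr a b c cA BE BO G il = true)
    (hI : ∀ x ∈ il, ∀ y ∈ x.s, ∀ v, 0 < ev (K y.k) v → 0 < ev (K x.k) v) :
    HXU p q r (zw z) (KU kf kr p q r K) 3 T4.three :=
  hxU_of_ch (fun h => Pool.Agent.Helper48.NCT.cut_three h) (fun kx s => kE_three kx p q r s)
    (by norm_num) le_rfl (has_ge ha) (has_ge hb) (has_ge hc) hz hz1 hP.res hbr
    (chnU_all ha hb hc h) hI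

/-- the blocks of three letters at the walls -/
theorem hA_of_wal (ha : a.has p) (hb : b.has q) (hc : c.has r) (hz : z ≠ 0) (hz1 : z + 1 ≠ 0)
    (hP : PtR K (kR p q r) z G sl le) (hbr : brOK BE BO = true) {W0 W1 W2 : WN}
    (h : wallU kf kr a b c W0 W1 W2 BE BO G il = true)
    (hI : ∀ x ∈ il, ∀ y ∈ x.s, ∀ v, 0 < ev (K y.k) v → 0 < ev (K x.k) v)
    (hfam : ∀ s, DG s → giS s < 3 → (wS W0 W1 W2 (giS s)).f = true → ∀ m : ℕ, ∀ v,
      0 < ev (K (wS W0 W1 W2 (giS s)).e) v → 0 < ev (K (wS W0 W1 W2 (giS s)).x)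
        ((gM (RMb p q r) s (List.replicate 2 3) (zw z) ^ (m + 1)).mulVec v)) :
    HXU p q r (zw z) (KU kf kr p q r K) 3 T4.three := by
  unfold wallU at h
  rw [List.all_eq_true, lb_rp ha, lb_rp hb, lb_rp hc] at h
  exact hxU_of_wall (has_ge ha) (has_ge hb) (has_ge hc) hz hz1 hP.res hbr
    (fun i hi => h i (List.mem_range.2 hi)) hI hfam

/-- walls and a chain -/
theorem ptU_C (ha : a.has p) (hb : b.has q) (hc : c.has r) {W0 W1 W2 : WN} {cB : Ch}
    (hm : modUC kf kr a b c W0 W1 W2 cB BE BO G il sl le = true) :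
    PtU p q r G sl le il W0 W1 W2 := by
  intro z hz hz1 K hP hI hfam
  unfold modUC at hm
  simp only [Bool.and_eq_true] at hm
  obtain ⟨h0, hW, hC⟩ := hm
  exact ⟨_, tcertU_pt ha hb hc hz hz1 hP h0
    (hA_of_wal ha hb hc hz hz1 hP (modU0_br h0) hW hI hfam)
    (hB_of_chn ha hb hc hz hz1 hP (modU0_br h0) hC hI)⟩

/-- two chains -/
theorem ptU_CC (ha : a.has p) (hb : b.has q) (hc : c.has r) {W0 W1 W2 : WN} {cA cB : Ch}
    (hm : modUCC kf kr a b c cA cB BE BO G il sl le = true) :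
    PtU p q r G sl le il W0 W1 W2 := by
  intro z hz hz1 K hP hI _
  unfold modUCC at hm
  simp only [Bool.and_eq_true] at hm
  obtain ⟨h0, hA, hC⟩ := hm
  exact ⟨_, tcertU_pt ha hb hc hz hz1 hP h0
    (hA_of_chn ha hb hc hz hz1 hP (modU0_br h0) hA hI)
    (hB_of_chn ha hb hc hz hz1 hP (modU0_br h0) hC hI)⟩

end

/-! ### chains of cells -/

/-- a chain of cells, any property of intervals which can be joined -/
theorem pcNT_gen {α β δ ε : Type} {f : NDT α β δ → Bool} {g : NDT α β δ → ε → Bool}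
    {C : ℝ → ℝ → Prop} (hj : ∀ a b c, C a b → C b c → C a c) {e : ℕ} :
    ∀ (l : List (NDT α β δ)) (d : NDT α β δ) (As : List ε) (y : ℕ), pcNT f e (d :: l) y = true →
      sideLT g (d :: l) As = true →
      (∀ u ∈ d :: l, ∀ A, g u A = true → f u = true →
        C ((u.c.ya : ℝ) / 2 ^ 48) ((u.c.yb : ℝ) / 2 ^ 48)) →
      C ((y : ℝ) / 2 ^ 48) ((e : ℝ) / 2 ^ 48) := by
  intro l
  induction l with
  | nil =>
    intro d As y H hA hf
    obtain ⟨h1, H⟩ := andB_tt H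
    obtain ⟨-, H⟩ := andB_tt H
    obtain ⟨h3, h4⟩ := andB_tt H
    have e1 : y = d.c.ya := Nat.eq_of_beq_eq_true h1
    have e2 : d.c.yb = e := Nat.eq_of_beq_eq_true h4
    rcases As with _ | ⟨A, As⟩
    · cases hA
    · have hA' : (g d A && sideLT g [] As) = true := hA
      rw [Bool.and_eq_true] at hA'
      rw [e1, ← e2]
      exact hf d List.mem_cons_self A hA'.1 h3
  | cons d' l ih =>
    intro d As y H hA hf
    obtain ⟨h1, H⟩ := andB_tt H
    obtain ⟨-, H⟩ := andB_tt H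
    obtain ⟨h3, h4⟩ := andB_tt H
    have e1 : y = d.c.ya := Nat.eq_of_beq_eq_true h1
    rcases As with _ | ⟨A, As⟩
    · cases hA
    · have hA' : (g d A && sideLT g (d' :: l) As) = true := hA
      rw [Bool.and_eq_true] at hA'
      rw [e1]
      exact hj _ _ _ (hf d List.mem_cons_self A hA'.1 h3) (ih d' As d.c.yb h4 hA'.2 fun u hu =>
        hf u (List.mem_cons_of_mem _ hu))

/-! ### cells and lists -/

section

variable {α β P v γ : Type} {D : ℕ} {lC : α → Vt D → Cx} {lf : α → Vt D → ℂ}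
  {mf : (ℕ → ℝ) → β → (ℕ → ℝ) → ℝ} {lp : P → Vt D → P9} {lv : v → Vt D → VR}
  {lg : γ → Vt D → ℕ} {Sp : P → List Bool → Prop} {Sv' : v → List Bool → Prop}
  {Sg : γ → List Bool → Prop} {M : Mc α β P v γ}

/-- A LIST OF NEAR CELLS, any certificate of the points -/
theorem list_NU (hM : MK D lC lf mf lp lv lg Sp Sv' Sg M)
    (hn : ∀ (f : ℕ → ℝ) (T : β) (t : ℕ → ℝ), PT D t → (∀ x, 0 ≤ f x) → 0 ≤ mf f T t)
    {ONE : β} (h1 : ON mf ONE) {F : FTT α β (FDT β)} (hF : FamTOK D lf mf F) (hp : 3 ≤ p)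
    (hq : 3 ≤ q) (hr : 3 ≤ r) {x0 : ℝ} (x1 : -2 < x0) (x2 : x0 ≤ 2)
    (t1 : xA p q r ≤ x0) (t2 : xA q r p ≤ x0) (t3 : xA r p q ≤ x0)
    {W0 W1 W2 : WN} {G : TProg} {il : List IT} {sl : List ℕ} {le : List LT2}
    (hPt : PtU p q r G sl le il W0 W1 W2)
    {S : Sv P} {W : Vx β} {Y : ℕ → ℕ → α} {k0 k1 k2 : Mo α} {C : Cls α} {Ge : Prog v}
    {X : Mo α} {f0 f1 f2 : Bool} (g0 : f0 = W0.f) (g1 : f1 = W1.f) (g2 : f2 = W2.f)
    {sc : CellT α β → Bool} {l : List (NDT α β (FDT β))} (hl : l ≠ []) {As : List NA}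
    (hs : sideLT (sideNT W0 W1 W2 sc) l As = true)
    (hD : ∀ d : CellT α β, sc d = true → chkDT M S W Y C Ge X sl le d = true →
      CAll D lf mf M.A p q r x0 G sl le k0 k1 k2 C (addM M.A X (mk M.A (Y d.ya d.yb) (nat_lit 0)))
        d) {y e : ℕ}
    (H : chkPNT M S W Y F f0 f1 f2 k0 k1 k2 C Ge X sl le ONE il e l y = true) :
    TCellU p q r x0 ((y : ℝ) / 2 ^ 48) ((e : ℝ) / 2 ^ 48) := by
  subst g0
  subst g1
  subst g2
  obtain ⟨d, l, rfl⟩ := List.exists_cons_of_ne_nil hl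
  refine pcNT_gen (C := TCellU p q r x0) (fun _ _ _ h h' => h.join h') l d As y H hs
    fun u hu A hA hc' => ?_
  unfold sideNT at hA
  simp only [Bool.and_eq_true] at hA
  obtain ⟨h0, h2, h3, h4⟩ := hA
  obtain ⟨H1, H'⟩ := andB_tt hc'
  obtain ⟨H2, H3⟩ := andB_tt H'
  refine tcellU_of_z x1 x2 CBT ?_
  intro z y hy0 hya hyb hz _ _ hui hzx
  obtain ⟨t, h⟩ := hD u.c h0 H1 hy0 hya hyb hz hui hzx
  have hI := chkIT_pos hM hn h1 H2 h.pt
  have hz1 := z_ne x1 hzx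
  have hN : NZ (kap3 p q r) z := by
    have h2 := h.P.nz
    rwa [cκ_kR] at h2
  have hfam := fam_ptT (famOKT_of hF) hp hq hr x1 t1 t2 t3 h.pt hy0 hz hzx hN h.a0 h.a1 h.a2 h.C
    h.u h.z (sideWT_iff h2) (sideWT_iff h3) (sideWT_iff h4) H3
  exact hPt hz hz1 h.P hI hfam

end

section

variable {α β P v γ : Type} {D : ℕ} {lC : α → Vt (D + 1) → Cx} {lf : α → Vt (D + 1) → ℂ}
  {mf : (ℕ → ℝ) → β → (ℕ → ℝ) → ℝ} {lp : P → Vt (D + 1) → P9} {lv : v → Vt (D + 1) → VR}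
  {lg : γ → Vt (D + 1) → ℕ} {Sa : α → List Bool → Prop} {Sp : P → List Bool → Prop}
  {Sv' : v → List Bool → Prop} {Sg : γ → List Bool → Prop} {M : Mc α β P v γ}
  {S : Sv P} {W : Vx β} {Y : ℕ → ℕ → α} {qd : ℕ → Cx → Cx → Cx → α} {rt : α → Bool}

/-- A MODULE OF NEAR CELLS, any line given by a model, any certificate of the points -/
theorem nearU_G {X : XM α v}
    (hZ : MZ D lC lf mf lp lv lg Sa Sp Sv' Sg M X.Q X.c X.r S W Y qd rt) {ONE : β}
    (h1 : ON mf ONE) {F : FTT α β (FDT β)} (hF : FamTOK (D + 1) lf mf F)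
    (hp : 3 ≤ p) (hq : 3 ≤ q) (hr : 3 ≤ r)
    {s0 s1 s2 : KS} {Xo : Mo α} {x0 : ℝ} (hC : CLD D lf M qd rt X Xo s0 s1 s2 (kR p q r) x0)
    (x1 : -2 < x0) (x2 : x0 ≤ 2) (t1 : xA p q r ≤ x0) (t2 : xA q r p ≤ x0) (t3 : xA r p q ≤ x0)
    {W0 W1 W2 : WN} {G : TProg} {il : List IT} {sl : List ℕ} {le : List LT2}
    (hPt : PtU p q r G sl le il W0 W1 W2)
    {f0 f1 f2 : Bool} (g0 : f0 = W0.f) (g1 : f1 = W1.f) (g2 : f2 = W2.f)
    {l : List (NDT α β (FDT β))} (hl : l ≠ []) {As : List NA}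
    (hs : sideLT (sideNT W0 W1 W2 (sideT W le)) l As = true) {y e : ℕ}
    (H : chkPNT M S W Y F f0 f1 f2 X.k0 X.k1 X.k2 (mkCls M.A X.k0 X.k1 X.k2) (expand X G)
      Xo sl le ONE il e l y = true) :
    TCellU p q r x0 ((y : ℝ) / 2 ^ 48) ((e : ℝ) / 2 ^ 48) := by
  refine list_NU hZ.m.k hZ.w.pos h1 hF hp hq hr x1 x2 t1 t2 t3 hPt g0 g1 g2 hl hs ?_ H
  intro d hd hk z h hh0 hha hhb hz hui hzx
  obtain ⟨t, b1, b2, b3, b4, b5, b6, b7, b8⟩ := chkDT_pt hZ hC hd hk (h := h)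
    (by rw [div_le_iff₀ (by positivity)] at hha; linarith)
    (by rw [le_div_iff₀ (by positivity)] at hhb; linarith) hz hzx hui
  rw [cκ_kR] at b6
  exact ⟨t, b1, b2, b3, b4, b5, b6, b7, b8⟩

/-- line `x_B` (sign test), walls and a chain -/
theorem nearU_xQC {X : XM α v}
    (hZ : MZ D lC lf mf lp lv lg Sa Sp Sv' Sg M X.Q X.c X.r S W Y qd rt) (hD : D ≤ 3) {ONE : β}
    (h1 : ON mf ONE) {F : FTT α β (FDT β)} (hF : FamTOK (D + 1) lf mf F) {a b c : Lb}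
    (ha : a.has p) (hb : b.has q) (hc : c.has r) (hp : 14 ≤ p) (hq : 14 ≤ q) (hr : 14 ≤ r)
    {s0 s1 s2 : KS} {C0 C : α} {n m : ℕ} {Z : Fin 3 → Fin 3 → Fin 3 → ℤ}
    (hX : XQD D lf M.A qd rt C0 n C m s0 s1 s2 Z)
    (hx : modXQ M rt D X C m s0 s1 s2 a b c = true)
    (e0 : X.k0 = s0.mo M.A qd) (e1 : X.k1 = s1.mo M.A qd) (e2 : X.k2 = s2.mo M.A qd)
    {W0 W1 W2 : WN} {cB : Ch} {BE BO : List ℕ} {G : TProg} {il : List IT} {sl : List ℕ}
    {le : List LT2} (hm : modUC kf kr a b c W0 W1 W2 cB BE BO G il sl le = true)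
    {f0 f1 f2 : Bool} (g0 : f0 = W0.f) (g1 : f1 = W1.f) (g2 : f2 = W2.f)
    {l : List (NDT α β (FDT β))} (hl : l ≠ []) {As : List NA}
    (hs : sideLT (sideNT W0 W1 W2 (sideT W le)) l As = true) {y e : ℕ}
    (H : chkPNT M S W Y F f0 f1 f2 X.k0 X.k1 X.k2 (mkCls M.A X.k0 X.k1 X.k2) (expand X G)
      (xQM M.A C m) sl le ONE il e l y = true) :
    TCellU p q r (xBp p q r) ((y : ℝ) / 2 ^ 48) ((e : ℝ) / 2 ^ 48) := by
  have hC := cld_Q (X := X) hZ hD ha hb hc hp hq hr hX hx e0 e1 e2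
  have hT := thr_xBp hp hq hr
  exact nearU_G hZ h1 hF (by omega) (by omega) (by omega) hC hT.gt hT.le hT.A1 hT.A2 hT.A3
    (ptU_C ha hb hc hm) g0 g1 g2 hl hs H

/-- line `x_B` (sign test), two chains -/
theorem nearU_xQCC {X : XM α v}
    (hZ : MZ D lC lf mf lp lv lg Sa Sp Sv' Sg M X.Q X.c X.r S W Y qd rt) (hD : D ≤ 3) {ONE : β}
    (h1 : ON mf ONE) {F : FTT α β (FDT β)} (hF : FamTOK (D + 1) lf mf F) {a b c : Lb}
    (ha : a.has p) (hb : b.has q) (hc : c.has r) (hp : 14 ≤ p) (hq : 14 ≤ q) (hr : 14 ≤ r)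
    {s0 s1 s2 : KS} {C0 C : α} {n m : ℕ} {Z : Fin 3 → Fin 3 → Fin 3 → ℤ}
    (hX : XQD D lf M.A qd rt C0 n C m s0 s1 s2 Z)
    (hx : modXQ M rt D X C m s0 s1 s2 a b c = true)
    (e0 : X.k0 = s0.mo M.A qd) (e1 : X.k1 = s1.mo M.A qd) (e2 : X.k2 = s2.mo M.A qd)
    {W0 W1 W2 : WN} {cA cB : Ch} {BE BO : List ℕ} {G : TProg} {il : List IT} {sl : List ℕ}
    {le : List LT2} (hm : modUCC kf kr a b c cA cB BE BO G il sl le = true)
    {f0 f1 f2 : Bool} (g0 : f0 = W0.f) (g1 : f1 = W1.f) (g2 : f2 = W2.f)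
    {l : List (NDT α β (FDT β))} (hl : l ≠ []) {As : List NA}
    (hs : sideLT (sideNT W0 W1 W2 (sideT W le)) l As = true) {y e : ℕ}
    (H : chkPNT M S W Y F f0 f1 f2 X.k0 X.k1 X.k2 (mkCls M.A X.k0 X.k1 X.k2) (expand X G)
      (xQM M.A C m) sl le ONE il e l y = true) :
    TCellU p q r (xBp p q r) ((y : ℝ) / 2 ^ 48) ((e : ℝ) / 2 ^ 48) := by
  have hC := cld_Q (X := X) hZ hD ha hb hc hp hq hr hX hx e0 e1 e2
  have hT := thr_xBp hp hq hr
  exact nearU_G hZ h1 hF (by omega) (by omega) (by omega) hC hT.gt hT.le hT.A1 hT.A2 hT.A3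
    (ptU_CC ha hb hc hm) g0 g1 g2 hl hs H

/-- line `xA`, labels with `p ≤ r` and `q ≤ r`, any certificate of the points -/
theorem nearU_lb {X : XM α v}
    (hZ : MZ D lC lf mf lp lv lg Sa Sp Sv' Sg M X.Q X.c X.r S W Y qd rt) (hD : D ≤ 3) {ONE : β}
    (h1 : ON mf ONE) {F : FTT α β (FDT β)} (hF : FamTOK (D + 1) lf mf F) {a b c : Lb}
    (ha : a.has p) (hb : b.has q) (hc : c.has r) (h13 : lbLe a c = true) (h23 : lbLe b c = true)
    {s0 s1 s2 : KS} (hx : modXT M rt D X s0 s1 s2 a b c = true)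
    (e0 : X.k0 = s0.mo M.A qd) (e1 : X.k1 = s1.mo M.A qd) (e2 : X.k2 = s2.mo M.A qd)
    {W0 W1 W2 : WN} {G : TProg} {il : List IT} {sl : List ℕ} {le : List LT2}
    (hPt : PtU p q r G sl le il W0 W1 W2)
    {f0 f1 f2 : Bool} (g0 : f0 = W0.f) (g1 : f1 = W1.f) (g2 : f2 = W2.f)
    {l : List (NDT α β (FDT β))} (hl : l ≠ []) {As : List NA}
    (hs : sideLT (sideNT W0 W1 W2 (sideT W le)) l As = true) {y e : ℕ}
    (H : chkPNT M S W Y F f0 f1 f2 X.k0 X.k1 X.k2 (mkCls M.A X.k0 X.k1 X.k2) (expand X G)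
      (xAM M.A X.k0 X.k1 X.k2) sl le ONE il e l y = true) :
    TCellU p q r (xA p q r) ((y : ℝ) / 2 ^ 48) ((e : ℝ) / 2 ^ 48) := by
  have hp := has_ge ha
  have hq := has_ge hb
  have hr := has_ge hc
  have hpr := lbLe_ok h13 ha hc
  have hqr := lbLe_ok h23 hb hc
  have hC := cld_A (X := X) hZ hD ha hb hc hx e0 e1 e2
  have t3 : xA q r p ≤ xA p q r := by
    have h := xA_max hq hp hpr
    rw [xA_swap p q r] at h
    rwa [xA_swap q r p] at h
  exact nearU_G hZ h1 hF hp hq hr hC (xA_gt hp hq hqr) (xA_le2 hp hq hr) le_rfl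
    t3 (xA_max hp hq hqr) hPt g0 g1 g2 hl hs H

/-- constant line, any certificate of the points -/
theorem nearU_E {X : XM α v}
    (hZ : MZ D lC lf mf lp lv lg Sa Sp Sv' Sg M X.Q X.c X.r S W Y qd rt) {ONE : β}
    (h1 : ON mf ONE) {F : FTT α β (FDT β)} (hF : FamTOK (D + 1) lf mf F) {a b c : Lb}
    (ha : a.has p) (hb : b.has q) (hc : c.has r)
    {s0 s1 s2 : KS} {Xz : Z} {n : ℕ} (hx : modXE M rt D X Xz n s0 s1 s2 a b c = true)
    (e0 : X.k0 = s0.mo M.A qd) (e1 : X.k1 = s1.mo M.A qd) (e2 : X.k2 = s2.mo M.A qd) {x0 : ℝ}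
    (hX : |2 ^ 48 * x0 - (zv Xz : ℝ)| ≤ (n : ℝ)) (hT : Thr p q r x0)
    {W0 W1 W2 : WN} {G : TProg} {il : List IT} {sl : List ℕ} {le : List LT2}
    (hPt : PtU p q r G sl le il W0 W1 W2)
    {f0 f1 f2 : Bool} (g0 : f0 = W0.f) (g1 : f1 = W1.f) (g2 : f2 = W2.f)
    {l : List (NDT α β (FDT β))} (hl : l ≠ []) {As : List NA}
    (hs : sideLT (sideNT W0 W1 W2 (sideT W le)) l As = true) {y e : ℕ}
    (H : chkPNT M S W Y F f0 f1 f2 X.k0 X.k1 X.k2 (mkCls M.A X.k0 X.k1 X.k2) (expand X G)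
      (cX M.A Xz n) sl le ONE il e l y = true) :
    TCellU p q r x0 ((y : ℝ) / 2 ^ 48) ((e : ℝ) / 2 ^ 48) := by
  have hC := cld_E (X := X) hZ ha hb hc hx e0 e1 e2 hX
  exact nearU_G hZ h1 hF (has_ge ha) (has_ge hb) (has_ge hc) hC hT.gt hT.le hT.A1 hT.A2 hT.A3
    hPt g0 g1 g2 hl hs H

end

end Pool.Agent.Helper57.U2
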