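import Pool.Agent.Helper6.CX.TPC

/-!
Row U2 (MP_c75db0): twin states. The typed regions are split by the length of the last block: one
run (`false`) or at least two runs (`true`). The block certificate of the twin states.
-/

set_option autoImplicit false
noncomputable section
namespace Pool.Agent.Helper57.U2

open Pool.Agent.Helper6.MONO (V3 RV2 nxD sD okD mm LNI_mm Y0 RMb DYm DLm DTH omS kk)
open Pool.Agent.Helper6.MONO.SV (UY)
open Pool.Agent.Helper21.SUP
open Pool.Agent.Helper39.C75 (IsRegion)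
open Pool.Agent.Helper39.SLT

/-- regions of the twin states respected by the blocks of a scheme; the second state is the one
after a block of at least two runs -/
def BlkCertU (Z : Sch Ty) (p q r : ℕ) (RM : GS → ℕ → ℂ → Matrix (Fin 3) (Fin 3) ℂ) (w : ℂ)
    (R : SSt Ty → Bool → Set (Fin 3 → ℂ)) : Prop :=
  ∀ (o : Option Ty) (f : Bool) (s : GS) (m : ℕ) (ms : List ℕ) (t : Ty), DG s →
    Z.Blk p q r o f s m ms t → ∀ i : Bool, ∀ v ∈ R (s, f, o) i,
      (gM RM s (m :: ms) w).mulVec v ∈
        R (sD s (m :: ms), fD p q r f s (m :: ms), some t) (decide (1 ≤ ms.length))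

/-- the twin index which is used at a state -/
def tI : Option Ty → Bool → Bool
  | some Ty.A, i => i
  | some Ty.B, i => i
  | _, _ => false

/-- the regions of the twin states -/
def regU (p q r : ℕ) (R : Bool → GS → T4 → Set (Fin 3 → ℂ)) (σ : SSt Ty) (i : Bool) :
    Set (Fin 3 → ℂ) :=
  reg p q r (R (tI σ.2.2 i)) σ

/-- the pairs (type, twin index) which occur -/
def TJ (T : T4) (i : Bool) : Prop := i = true → T = T4.two ∨ T = T4.three

theorem TJ_f (T : T4) : TJ T false := fun h => by cases h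

variable {p q r : ℕ} {R : Bool → GS → T4 → Set (Fin 3 → ℂ)}

/-- an element of a region comes from one of the typed regions -/
theorem memU_any {s : GS} {f : Bool} {o : Option Ty} {i : Bool} {v : Fin 3 → ℂ}
    (hv : v ∈ regU p q r R (s, f, o) i) :
    ∃ (T : T4) (j : Bool), T.ok (ML p q r s) ∧ TJ T j ∧ v ∈ R j s T := by
  match o, hv with
  | some Ty.B, hv => exact ⟨T4.two, i, trivial, fun _ => Or.inl rfl, hv.2⟩
  | some Ty.A, hv => exact ⟨T4.three, i, trivial, fun _ => Or.inr rfl, hv.2⟩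
  | some (Ty.P _), hv => exact hv.elim
  | some (Ty.Q _), hv => exact hv.elim
  | none, hv => exact ⟨T4.two, false, trivial, TJ_f _, hv.2.2.1⟩
  | some Ty.o, hv =>
    rcases hv with ⟨-, h5, h6⟩ | ⟨-, h5, h6⟩
    · exact ⟨T4.full, false, h5, TJ_f _, h6⟩
    · exact ⟨T4.oth, false, h5, TJ_f _, h6⟩

theorem memU_notA {s : GS} {f : Bool} {o : Option Ty} {i : Bool} {v : Fin 3 → ℂ}
    (hv : v ∈ regU p q r R (s, f, o) i) (ho : o ≠ some Ty.A) :
    ∃ (T : T4) (j : Bool), T.ok (ML p q r s) ∧ TJ T j ∧ T ≠ T4.three ∧ v ∈ R j s T := by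
  match o, hv, ho with
  | some Ty.B, hv, _ => exact ⟨T4.two, i, trivial, fun _ => Or.inl rfl, by decide, hv.2⟩
  | some Ty.A, _, ho => exact absurd rfl ho
  | some (Ty.P _), hv, _ => exact hv.elim
  | some (Ty.Q _), hv, _ => exact hv.elim
  | none, hv, _ => exact ⟨T4.two, false, trivial, TJ_f _, by decide, hv.2.2.1⟩
  | some Ty.o, hv, _ =>
    rcases hv with ⟨-, h5, h6⟩ | ⟨-, h5, h6⟩
    · exact ⟨T4.full, false, h5, TJ_f _, by decide, h6⟩
    · exact ⟨T4.oth, false, h5, TJ_f _, by decide, h6⟩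

theorem memU_low {s : GS} {o : Option Ty} {i : Bool} {v : Fin 3 → ℂ}
    (hv : v ∈ regU p q r R (s, false, o) i) (ho : o ≠ some Ty.B) :
    ∃ (T : T4) (j : Bool), T.ok (ML p q r s) ∧ TJ T j ∧ T.low (ML p q r s) ≤ 2 ∧ T ≠ T4.two ∧
      v ∈ R j s T := by
  match o, hv, ho with
  | some Ty.B, _, ho => exact absurd rfl ho
  | some Ty.A, hv, _ =>
    have h1 : ¬ (ML p q r s = 3) := by
      intro h
      have h2 := hv.1
      rw [h] at h2
      exact absurd h2 (by decide)
    refine ⟨T4.three, i, trivial, fun _ => Or.inr rfl, ?_, by decide, hv.2⟩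
    show (if ML p q r s = 3 then 3 else 2) ≤ 2
    rw [if_neg h1]
  | some (Ty.P _), hv, _ => exact hv.elim
  | some (Ty.Q _), hv, _ => exact hv.elim
  | none, hv, _ =>
    have h1 : ¬ (ML p q r s = 3) := by
      have := hv.2.1
      omega
    refine ⟨T4.three, false, trivial, TJ_f _, ?_, by decide, hv.2.2.2⟩
    show (if ML p q r s = 3 then 3 else 2) ≤ 2
    rw [if_neg h1]
  | some Ty.o, hv, _ =>
    rcases hv with ⟨h4, -, -⟩ | ⟨-, h5, h6⟩
    · cases h4
    · exact ⟨T4.oth, false, h5, TJ_f _, le_rfl, by decide, h6⟩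

/-- THE BLOCK CERTIFICATE OF THE TWIN STATES from tests for the types of the last run -/
theorem typ_certU (hp : 3 ≤ p) (hq : 3 ≤ q) (hr : 3 ≤ r)
    {RM : GS → ℕ → ℂ → Matrix (Fin 3) (Fin 3) ℂ} {w : ℂ}
    (hS : ∀ s, DG s → ∀ (T : T4) (i : Bool), T.ok (ML p q r s) → TJ T i → ∀ m, 4 ≤ m →
      m ≤ mm p q r s.1 s.2.1 → ∀ v ∈ R i s T,
        (RM s m w).mulVec v ∈ R false (nx s m) (T4.next (mm p q r s.1 s.2.1) m))
    (hA : ∀ s, DG s → ∀ (T : T4) (i : Bool), T.ok (ML p q r s) → TJ T i → T ≠ T4.three → ∀ k : ℕ,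
      ∀ v ∈ R i s T, (gM RM s (List.replicate (k + 1) 3) w).mulVec v ∈
        R (decide (1 ≤ k)) (sD s (List.replicate (k + 1) 3)) T4.three)
    (hB : ∀ s, DG s → ∀ (T : T4) (i : Bool), T.ok (ML p q r s) → TJ T i →
      T.low (ML p q r s) ≤ 2 → T ≠ T4.two → ∀ k : ℕ,
      ∀ v ∈ R i s T, (gM RM s (List.replicate (k + 1) 2) w).mulVec v ∈
        R (decide (1 ≤ k)) (sD s (List.replicate (k + 1) 2)) T4.two) :
    BlkCertU (std Y0) p q r RM w (regU p q r R) := by
  intro o f s m ms t hD hb i v hv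
  obtain ⟨hn, hok, hs⟩ := std_blk Y0 p q r o f s m ms t hb
  have hok1 : ok1 p q r f s m := ((okD_cons p q r f s m ms).1 hok).1
  rcases hs with ⟨ht, hms, h3, h2, -⟩ | ⟨ht, -, hms⟩ | ⟨ht, -, hms⟩ | ⟨hC, -⟩
  · -- a run of at least four letters
    subst ht
    subst hms
    have n3 : m ≠ 3 := fun h => h3 ⟨h, rfl⟩
    have n2 : m ≠ 2 := fun h => h2 ⟨h, rfl⟩
    obtain ⟨T, j, hT, hj, hv'⟩ := memU_any hv
    have h4 : 4 ≤ m := by
      have := hok1.1
      omega
    have h5 := hS s hD T j hT hj m h4 hok1.2.1 v hv'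
    have e1 : gM RM s [m] w = RM s m w := by simp only [gM, one_mul]
    have e2 : sD s [m] = nx s m := by rw [sD_cons, sD_nil]
    rw [e1, e2]
    show _ ∈ reg p q r (R false) (nx s m, decide (m = mm p q r s.1 s.2.1), some Ty.o)
    by_cases hm : m = mm p q r s.1 s.2.1
    · left
      refine ⟨by simp [hm], by rw [ML_nx]; omega, ?_⟩
      rw [T4.next, if_neg n2, if_neg n3, if_pos hm] at h5
      exact h5
    · right
      have := hok1.2.1
      refine ⟨by simp [hm], by rw [ML_nx]; omega, ?_⟩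
      rw [T4.next, if_neg n2, if_neg n3, if_neg hm] at h5
      exact h5
  · -- runs of three letters
    subst ht
    rw [alL_self] at hms
    have hm3 : m = 3 := by
      rw [List.replicate_succ] at hms
      exact (List.cons.inj hms).1
    subst hm3
    have ho : o ≠ some Ty.A := by
      intro ho
      rcases hn Ty.A ho with h | h
      · omega
      · exact h rfl
    obtain ⟨T, j, hT, hj, hT3, hv'⟩ := memU_notA hv ho
    have h5 := hA s hD T j hT hj hT3 ms.length v hv'
    rw [hms]
    exact ⟨fD_rep p q r f s 3 ms.length, h5⟩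
  · -- runs of two letters
    subst ht
    rw [alL_self] at hms
    have hm2 : m = 2 := by
      rw [List.replicate_succ] at hms
      exact (List.cons.inj hms).1
    subst hm2
    have ho : o ≠ some Ty.B := by
      intro ho
      rcases hn Ty.B ho with h | h
      · omega
      · exact h rfl
    have hf : f = false := by
      cases hff : f with
      | false => rfl
      | true =>
        have := hok1.2.2 hff
        omega
    subst hf
    obtain ⟨T, j, hT, hj, hl, hT2, hv'⟩ := memU_low hv ho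
    have h5 := hB s hD T j hT hj hl hT2 ms.length v hv'
    rw [hms]
    refine ⟨?_, h5⟩
    rw [fD_rep]
    have := ML_ge hp hq hr (DG_sD' (List.replicate (ms.length + 1) 2) s hD)
    rw [decide_eq_false_iff_not]
    omega
  · cases hC

end Pool.Agent.Helper57.U2
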