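import Pool.Agent.Helper57.U2.A
import Pool.Agent.Helper6.CX.MTC
import Pool.Agent.Helper12.CX.BRG

/-!
Row U2 (MP_c75db0): the typed certificate of a point with twin states, cells, embedding of the
certificates without twin states, certificates from two families of forms.
-/

set_option autoImplicit false
noncomputable section
namespace Pool.Agent.Helper57.U2

open Pool.Agent.Helper6.MONO (V3 RV2 TCert nxD sD okD mm LNI_mm Y0 RMb DYm DLm DTH omS kk zw wz
  zw_wz)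
open Pool.Agent.Helper6.MONO.QTR (V0 e0 Qt TCell xw)
open Pool.Agent.Helper6.MONO.SV (UY)
open Pool.Agent.Helper6.MTC (FCert RK isRegion_ev slit_ev bound_ev)
open Pool.Agent.Helper21.SUP
open Pool.Agent.Helper39.C75 (IsRegion)
open Pool.Agent.Helper39.SLT
open Pool.Agent.Helper86.CX (Hm ev)

/-- THE CERTIFICATE WITH TWIN STATES for the types of the last run, plain charts -/
structure TCertU (V : RV2) (e : ℝ) (p q r : ℕ) (C : ℝ) (w : ℂ)
    (R : Bool → GS → T4 → Set V3) : Prop where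
  reg : ∀ s, DG s → ∀ (T : T4) (i : Bool), T.ok (ML p q r s) → TJ T i → IsRegion (R i s T)
  blk : BlkCertU (std Y0) p q r (RMb p q r) w (regU p q r R)
  refY : ∀ s, DG s → ∀ (T : T4) (i : Bool), T.ok (ML p q r s) → TJ T i → T ≠ T4.two →
    (DYm (omS p q r s w)).mulVec ![1, (V.al : ℂ), (V.be : ℂ)] ∈ R i s T
  refL : ∀ s, DG s → ∀ i : Bool, ML p q r s = 3 → (DLm (omS p q r s w)).mulVec
    ![1, (V.c : ℂ), (V.d (kk p q r s.1 s.2.2) : ℂ)] ∈ R i s T4.two
  ref2 : ∀ s, DG s → ∀ i : Bool, 4 ≤ ML p q r s →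
    (DYm (omS p q r s w)).mulVec ![1, (V.al : ℂ), (V.be : ℂ)] ∈ R i s T4.two
  start : ∀ s, DG s → 4 ≤ ML p q r s → ∀ i,
    (DYm (omS p q r s w)).mulVec (UY V.al V.be e i) ∈ R false s T4.two ∧
      (DYm (omS p q r s w)).mulVec (UY V.al V.be e i) ∈ R false s T4.three
  slit3 : ∀ s, DG s → ∀ i : Bool, ∀ u ∈ R i s T4.three,
    DTH (kk p q r s.1 s.2.1) u / u 0 ∈ Complex.slitPlane
  slit2 : ∀ s, DG s → ∀ i : Bool, ∀ u ∈ R i s T4.two,
    DTH (kk p q r s.1 s.2.1) u / u 0 ∈ Complex.slitPlane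
  bound : ∀ s, DG s → ∀ (T : T4) (i : Bool), T.ok (ML p q r s) → TJ T i → ∀ u ∈ R i s T, ∀ j,
    ‖u j‖ ≤ C * ‖u 0‖

theorem TCertU.mono {V : RV2} {e : ℝ} {p q r : ℕ} {C C' : ℝ} {w : ℂ}
    {R : Bool → GS → T4 → Set V3} (h : C ≤ C') (hR : TCertU V e p q r C w R) :
    TCertU V e p q r C' w R :=
  ⟨hR.reg, hR.blk, hR.refY, hR.refL, hR.ref2, hR.start, hR.slit3, hR.slit2,
    fun s hs T i hT hi u hu j => (hR.bound s hs T i hT hi u hu j).trans
      (mul_le_mul_of_nonneg_right h (norm_nonneg _))⟩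

/-- a certificate without twin states -/
theorem TCertU.of_t {V : RV2} {e : ℝ} {p q r : ℕ} {C : ℝ} {w : ℂ} {R : GS → T4 → Set V3}
    (h : TCert V e p q r C w R) : TCertU V e p q r C w fun _ => R := by
  refine ⟨fun s hs T _ hT _ => h.reg s hs T hT, ?_, fun s hs T _ hT _ => h.refY s hs T hT,
    fun s hs _ => h.refL s hs, fun s hs _ h4 => ?_, h.start, fun s hs _ => h.slit3 s hs,
    fun s hs _ => h.slit2 s hs, fun s hs T _ hT _ => h.bound s hs T hT⟩
  · intro o f s m ms t hs hb i v hv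
    exact h.blk o f s m ms t hs hb v hv
  · have h1 := (h.start s hs h4 0).1
    rw [Pool.Agent.Helper6.MONO.UY_zero] at h1
    exact h1

/-! ### cells -/

/-- typed certificates with twin states on the cell `a ≤ y ≤ b` -/
def TCellU (p q r : ℕ) (x0 a b : ℝ) : Prop :=
  ∃ C : ℝ, ∀ w, Qt x0 w → a ≤ (xw w).im → (xw w).im ≤ b →
    ∃ R : Bool → GS → T4 → Set V3, TCertU V0 e0 p q r C w R

/-- a cell without twin states -/
theorem TCellU.of_t {p q r : ℕ} {x0 a b : ℝ} (h : TCell p q r x0 a b) : TCellU p q r x0 a b := by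
  obtain ⟨C, h⟩ := h
  refine ⟨C, fun w hw ha hb => ?_⟩
  obtain ⟨R, hR⟩ := h w hw ha hb
  exact ⟨_, TCertU.of_t hR⟩

theorem TCellU.join {p q r : ℕ} {x0 a b c : ℝ} (h1 : TCellU p q r x0 a b)
    (h2 : TCellU p q r x0 b c) : TCellU p q r x0 a c := by
  obtain ⟨C1, h1⟩ := h1
  obtain ⟨C2, h2⟩ := h2
  refine ⟨max C1 C2, fun w hw ha hc => ?_⟩
  rcases le_total (xw w).im b with h | h
  · obtain ⟨R, hR⟩ := h1 w hw ha h
    exact ⟨R, hR.mono (le_max_left _ _)⟩
  · obtain ⟨R, hR⟩ := h2 w hw h hc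
    exact ⟨R, hR.mono (le_max_right _ _)⟩

/-- cells in terms of `z` -/
theorem tcellU_of_z {p q r : ℕ} {x0 a b : ℝ} (hx : -2 < x0) (hx2 : x0 ≤ 2) (C : ℝ)
    (h : ∀ (z : ℂ) (y : ℝ), 0 ≤ y → a ≤ y → y ≤ b → z ≠ 0 → 1 ≤ ‖z‖ → 0 ≤ z.im → (z⁻¹).im ≤ 0 →
      z + z⁻¹ = (x0 : ℂ) + (y : ℂ) * Complex.I →
      ∃ R : Bool → GS → T4 → Set V3, TCertU V0 e0 p q r C (zw z) R) :
    TCellU p q r x0 a b := by
  refine ⟨C, fun w hw ha hb => ?_⟩
  have hz := hw.z hx hx2
  have h1 : 1 - w ≠ 0 := fun h' => hw.ne (by linear_combination -h')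
  have h2 := h (wz w) (xw w).im hz.im ha hb hz.z0 hz.one hz.zim hz.uim (by
    rw [hz.x_eq]
    apply Complex.ext
    · simp [hz.re]
    · simp)
  rwa [zw_wz h1] at h2

/-! ### two families of forms -/

/-- the regions of two families of forms -/
def RKU (K : Bool → GS → T4 → Hm ℝ) (i : Bool) (s : GS) (T : T4) : Set V3 := {v | 0 < ev (K i s T) v}

/-- THE CERTIFICATE from the conditions of the forms (both families) and the blocks -/
theorem tcertU_of {p q r : ℕ} {V : RV2} {e κ M : ℝ} (hκ : 0 < κ) {w : ℂ}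
    {K : Bool → GS → T4 → Hm ℝ} (h : ∀ i, FCert V e p q r κ M w (K i))
    (hb : BlkCertU (std Y0) p q r (RMb p q r) w (regU p q r (RKU K))) :
    TCertU V e p q r (5 * M / κ + 1) w (RKU K) := by
  have hreg : ∀ i s, DG s → ∀ T : T4, T.ok (ML p q r s) → IsRegion (RKU K i s T) :=
    fun i s hs T hT => isRegion_ev ((h i).neg s hs T hT) hκ.le
  have hne : ∀ i s, DG s → ∀ T : T4, T.ok (ML p q r s) → ∀ v ∈ RKU K i s T, v 0 ≠ 0 :=
    fun i s hs T hT v hv => (hreg i s hs T hT).ne0 v hv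
  refine ⟨fun s hs T i hT _ => hreg i s hs T hT, hb, fun s hs T i hT _ hT2 =>
    (h i).refY s hs T hT hT2, fun s hs i h3 => (h i).refL s hs h3, fun s hs i h4 => ?_,
    fun s hs h4 j => (h false).start s hs h4 j, ?_, ?_, ?_⟩
  · have h1 := ((h i).start s hs h4 0).1
    rw [Pool.Agent.Helper6.MONO.UY_zero] at h1
    exact h1
  · intro s hs i u hu
    obtain ⟨γ, h1, h2⟩ := (h i).slit3 s hs
    exact slit_ev h1 h2 (hne i s hs T4.three trivial u hu) hu
  · intro s hs i u hu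
    obtain ⟨γ, h1, h2⟩ := (h i).slit2 s hs
    exact slit_ev h1 h2 (hne i s hs T4.two trivial u hu) hu
  · intro s hs T i hT _ u hu j
    exact bound_ev hκ ((h i).neg s hs T hT) ((h i).ha s hs T hT) ((h i).hx s hs T hT)
      ((h i).hy s hs T hT) hu j

end Pool.Agent.Helper57.U2
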