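import Pool.Agent.Helper57.U2.B
import Pool.Agent.Helper48.CT.NCA

/-!
Row U2 (MP_c75db0): repeated runs with twin states: the first run of a block leads to the first
form, all further runs lead to the second form. Walls with families, single runs, chains.
-/

set_option autoImplicit false
noncomputable section
namespace Pool.Agent.Helper57.U2

open Pool.Agent.Helper86.CX hiding gM
open Pool.Agent.Helper6.MONO (V3 RV2 TCert mm RMb LNI_mm Y0)
open Pool.Agent.Helper21.SUP (GS DG SBlk SSt Ty std Modes gM sD_cons sD_nil gM_append)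
open Pool.Agent.Helper21.SUP renaming nx → nxs
open Pool.Agent.Helper39.SLT (T4 ML swA_base swA_one')
open Pool.Agent.Helper6.PRG (giS)
open Pool.Agent.Helper6.MTC (FCert)
open Pool.Agent.Helper39.NCL (single_all gM_one next_base nx_nx3)
open Complex ComplexConjugate

variable {p q r : ℕ} {w : ℂ} {K : Bool → GS → T4 → Hm ℝ} {x : ℕ} {X : T4}

theorem DG_rep (x : ℕ) : ∀ (k : ℕ) (s : GS), DG s →
    DG (Pool.Agent.Helper6.MONO.sD s (List.replicate k x)) := by
  intro k
  induction k with
  | zero => intro s hs; exact hs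
  | succ k ih =>
    intro s hs
    rw [List.replicate_succ, sD_cons]
    exact ih _ (Pool.Agent.Helper21.SUP.DG_nx s x hs)

/-- the first run of a block of `x` letters -/
def FstX (p q r : ℕ) (w : ℂ) (K : Bool → GS → T4 → Hm ℝ) (x : ℕ) (X : T4) : Prop :=
  ∀ s, DG s → ∀ (T : T4) (i : Bool), T.ok (ML p q r s) → TJ T i → T.low (ML p q r s) ≤ x → T ≠ X →
    ∀ v, 0 < ev (K i s T) v → 0 < ev (K false (nxs s x) X) ((RMb p q r s x w).mulVec v)

/-- the further runs of a block of `x` letters -/
def RepX (p q r : ℕ) (w : ℂ) (K : Bool → GS → T4 → Hm ℝ) (x : ℕ) (X : T4) : Prop :=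
  ∀ s, DG s → ∀ (k : ℕ) (v : Fin 3 → ℂ), 0 < ev (K false s X) v →
    0 < ev (K true (Pool.Agent.Helper6.MONO.sD s (List.replicate (k + 1) x)) X)
      ((gM (RMb p q r) s (List.replicate (k + 1) x) w).mulVec v)

/-- all blocks of `x` letters -/
def HXU (p q r : ℕ) (w : ℂ) (K : Bool → GS → T4 → Hm ℝ) (x : ℕ) (X : T4) : Prop :=
  ∀ s, DG s → ∀ (T : T4) (i : Bool), T.ok (ML p q r s) → TJ T i → T.low (ML p q r s) ≤ x → T ≠ X →
    ∀ (k : ℕ) (v : Fin 3 → ℂ), 0 < ev (K i s T) v →
      0 < ev (K (decide (1 ≤ k)) (Pool.Agent.Helper6.MONO.sD s (List.replicate (k + 1) x)) X)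
        ((gM (RMb p q r) s (List.replicate (k + 1) x) w).mulVec v)

theorem hxU_of (h1 : FstX p q r w K x X) (h2 : RepX p q r w K x X) : HXU p q r w K x X := by
  intro s hs T i hT hi hl hX k v hv
  have a1 := h1 s hs T i hT hi hl hX v hv
  have e2 : Pool.Agent.Helper6.MONO.sD s [x] = nxs s x := by rw [sD_cons, sD_nil]
  rcases Nat.eq_zero_or_pos k with hk | hk
  · subst hk
    show 0 < ev (K false (Pool.Agent.Helper6.MONO.sD s [x]) X) ((gM (RMb p q r) s [x] w).mulVec v)
    rw [gM_one, e2]
    exact a1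
  · obtain ⟨k, rfl⟩ : ∃ j, k = j + 1 := ⟨k - 1, by omega⟩
    have a2 := h2 (nxs s x) (Pool.Agent.Helper21.SUP.DG_nx s x hs) k _ a1
    rw [List.replicate_succ (n := k + 1)]
    have e : (x :: List.replicate (k + 1) x : List ℕ) = [x] ++ List.replicate (k + 1) x := rfl
    rw [sD_cons, e, gM_append, ← Matrix.mulVec_mulVec, gM_one, e2]
    have e3 : decide (1 ≤ k + 1) = true := by simp
    rw [e3]
    exact a2

/-- further runs by single runs, at the two states of a wall or at all states -/
theorem rep_single {S : Set GS} (hS : ∀ s ∈ S, nxs s x ∈ S)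
    (h1 : ∀ s ∈ S, ∀ v, 0 < ev (K false s X) v →
      0 < ev (K true (nxs s x) X) ((RMb p q r s x w).mulVec v))
    (h2 : ∀ s ∈ S, ∀ v, 0 < ev (K true s X) v →
      0 < ev (K true (nxs s x) X) ((RMb p q r s x w).mulVec v)) {s : GS} (hs : s ∈ S) (k : ℕ)
    {v : Fin 3 → ℂ} (hv : 0 < ev (K false s X) v) :
    0 < ev (K true (Pool.Agent.Helper6.MONO.sD s (List.replicate (k + 1) x)) X)
      ((gM (RMb p q r) s (List.replicate (k + 1) x) w).mulVec v) := by
  have a1 := h1 s hs v hv
  have a2 := single_all (RM := RMb p q r) (w := w) (x := x)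
    (T := fun s => {v : Fin 3 → ℂ | 0 < ev (K true s X) v}) (S := S) hS
    (fun u hu v hv => h2 u hu v hv) k (nxs s x) (hS s hs) _ a1
  rw [List.replicate_succ]
  have e : (x :: List.replicate k x : List ℕ) = [x] ++ List.replicate k x := rfl
  have e2 : Pool.Agent.Helper6.MONO.sD s [x] = nxs s x := by rw [sD_cons, sD_nil]
  rw [sD_cons, e, gM_append, ← Matrix.mulVec_mulVec, gM_one, e2]
  exact a2

/-- THE RUNS OF THREE LETTERS AT A NEAR POINT; `f`: walls with a family; `E`, `Z`: entry and exit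
forms of the base states (`giS s < 3`) -/
structure WallU (p q r : ℕ) (w : ℂ) (K : Bool → GS → T4 → Hm ℝ) (f : GS → Bool) (E Z : GS → Hm ℝ) :
    Prop where
  fs : ∀ s, DG s → f (nxs s 3) = f s
  a2 : ∀ s, DG s → f s = false → ∀ v, 0 < ev (K false s T4.three) v →
    0 < ev (K true (nxs s 3) T4.three) ((RMb p q r s 3 w).mulVec v)
  a3 : ∀ s, DG s → f s = false → ∀ v, 0 < ev (K true s T4.three) v →
    0 < ev (K true (nxs s 3) T4.three) ((RMb p q r s 3 w).mulVec v)
  eb : ∀ s, DG s → f s = true → giS s < 3 → ∀ v, 0 < ev (K false s T4.three) v → 0 < ev (E s) v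
  en : ∀ s, DG s → f s = true → ¬ giS s < 3 → ∀ v, 0 < ev (K false s T4.three) v →
    0 < ev (K true (nxs s 3) T4.three) ((RMb p q r s 3 w).mulVec v) ∧
      0 < ev (E (nxs s 3)) ((RMb p q r s 3 w).mulVec v)
  x0 : ∀ s, DG s → f s = true → giS s < 3 → ∀ v, 0 < ev (Z s) v →
    0 < ev (K true s T4.three) v ∧ 0 < ev (K true (nxs s 3) T4.three) ((RMb p q r s 3 w).mulVec v)
  e3 : ∀ s, DG s → f s = true → giS s < 3 → ∀ v, 0 < ev (E s) v →
    0 < ev (K true (nxs s 3) T4.three) ((RMb p q r s 3 w).mulVec v)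
  fam : ∀ s, DG s → f s = true → giS s < 3 → ∀ m : ℕ, ∀ v, 0 < ev (E s) v →
    0 < ev (Z s) ((gM (RMb p q r) s (List.replicate 2 3) w ^ (m + 1)).mulVec v)

theorem WallU.rep {f : GS → Bool} {E Z : GS → Hm ℝ} (h : WallU p q r w K f E Z) :
    RepX p q r w K 3 T4.three := by
  intro s hs k v hv
  cases hf : f s with
  | true =>
    by_cases hi : giS s < 3
    · exact swA_base (A0 := {v | 0 < ev (K false s T4.three) v}) (E := {v | 0 < ev (E s) v})
        (X := {v | 0 < ev (Z s) v})
        (T := fun s => {v : Fin 3 → ℂ | 0 < ev (K true s T4.three) v})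
        (fun n v hv => h.fam s hs hf hi n v hv) (fun v hv => h.eb s hs hf hi v hv)
        (fun v hv => (h.x0 s hs hf hi v hv).1) (fun v hv => (h.x0 s hs hf hi v hv).2)
        (fun v hv => h.e3 s hs hf hi v (h.eb s hs hf hi v hv)) k v hv
    · have hn := Pool.Agent.Helper21.SUP.DG_nx s 3 hs
      obtain ⟨hb, -⟩ := next_base s hs hi
      have hf' : f (nxs s 3) = true := by rw [h.fs s hs]; exact hf
      exact swA_one' (A0 := {v | 0 < ev (K false s T4.three) v})
        (E := {v | 0 < ev (E (nxs s 3)) v}) (X := {v | 0 < ev (Z (nxs s 3)) v})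
        (T := fun s => {v : Fin 3 → ℂ | 0 < ev (K true s T4.three) v})
        (fun n v hv => h.fam (nxs s 3) hn hf' hb n v hv)
        (fun v hv => (h.en s hs hf hi v hv).2)
        (fun v hv => (h.x0 (nxs s 3) hn hf' hb v hv).1)
        (fun v hv => by
          have h7 := (h.x0 (nxs s 3) hn hf' hb v hv).2
          rw [nx_nx3] at h7
          exact h7)
        (fun v hv => (h.en s hs hf hi v hv).1)
        (fun v hv => by
          have h7 := h.e3 (nxs s 3) hn hf' hb v hv
          rw [nx_nx3] at h7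
          exact h7) k v hv
  | false =>
    have hn := Pool.Agent.Helper21.SUP.DG_nx s 3 hs
    have hf' : f (nxs s 3) = false := by rw [h.fs s hs]; exact hf
    have hsn : ∀ u ∈ ({s, nxs s 3} : Set GS), nxs u 3 ∈ ({s, nxs s 3} : Set GS) := by
      intro u hu
      rcases hu with rfl | hu
      · exact Or.inr rfl
      · rw [Set.mem_singleton_iff.1 hu, nx_nx3]
        exact Or.inl rfl
    refine rep_single (S := {s, nxs s 3}) hsn ?_ ?_ (Or.inl rfl) k hv
    · intro u hu
      rcases hu with rfl | hu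
      · exact h.a2 u hs hf
      · rw [Set.mem_singleton_iff.1 hu]
        exact h.a2 _ hn hf'
    · intro u hu
      rcases hu with rfl | hu
      · exact h.a3 u hs hf
      · rw [Set.mem_singleton_iff.1 hu]
        exact h.a3 _ hn hf'

/-- THE RUNS THROUGH A CHAIN of forms `F 0, …, F S` of the states: `F 0` lies in the first form,
the others in the second one -/
theorem hxU_of_chain {S : ℕ} {F : ℕ → GS → Hm ℝ}
    (h1 : ∀ s, DG s → ∀ (T : T4) (i : Bool), T.ok (ML p q r s) → TJ T i →
      T.low (ML p q r s) ≤ x → T ≠ X → ∀ v, 0 < ev (K i s T) v →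
        0 < ev (F 0 (nxs s x)) ((RMb p q r s x w).mulVec v))
    (h2 : ∀ s, DG s → ∀ j, j ≤ S → ∀ v, 0 < ev (F j s) v →
      0 < ev (F (min (j + 1) S) (nxs s x)) ((RMb p q r s x w).mulVec v))
    (h3 : ∀ s, DG s → ∀ v, 0 < ev (F 0 s) v → 0 < ev (K false s X) v)
    (h4 : ∀ s, DG s → ∀ j, j ≤ S → (1 ≤ j ∨ S = 0) → ∀ v, 0 < ev (F j s) v →
      0 < ev (K true s X) v) : HXU p q r w K x X := by
  intro s hs T i hT hi hl hX k v hv
  have hn := Pool.Agent.Helper21.SUP.DG_nx s x hs
  have a1 := h1 s hs T i hT hi hl hX v hv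
  have e2 : Pool.Agent.Helper6.MONO.sD s [x] = nxs s x := by rw [sD_cons, sD_nil]
  have key : ∀ (k : ℕ) (s : GS), DG s → ∀ v, 0 < ev (F 0 s) v →
      0 < ev (F (min k S) (Pool.Agent.Helper6.MONO.sD s (List.replicate k x)))
        ((gM (RMb p q r) s (List.replicate k x) w).mulVec v) := by
    intro k
    induction k with
    | zero =>
      intro s hs v hv
      show 0 < ev (F (min 0 S) (Pool.Agent.Helper6.MONO.sD s [])) ((gM (RMb p q r) s [] w).mulVec v)
      rw [sD_nil, Nat.zero_min]
      simp only [gM, Matrix.one_mulVec]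
      exact hv
    | succ k ih =>
      intro s hs v hv
      have b1 := ih s hs v hv
      have b2 := h2 _ (DG_rep x k s hs) (min k S) (min_le_right _ _) _ b1
      have e3 : min (min k S + 1) S = min (k + 1) S := by omega
      rw [e3] at b2
      have e4 : List.replicate (k + 1) x = List.replicate k x ++ [x] := List.replicate_succ'
      have e5 : Pool.Agent.Helper6.MONO.sD s (List.replicate (k + 1) x) =
          nxs (Pool.Agent.Helper6.MONO.sD s (List.replicate k x)) x := by
        rw [e4, Pool.Agent.Helper21.SUP.sD_append, sD_cons, sD_nil]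
      rw [e5, e4, gM_append, ← Matrix.mulVec_mulVec, gM_one]
      exact b2
  have a2 := key k (nxs s x) hn _ a1
  have e : List.replicate (k + 1) x = [x] ++ List.replicate k x := List.replicate_succ
  have e6 : Pool.Agent.Helper6.MONO.sD s (List.replicate (k + 1) x) =
      Pool.Agent.Helper6.MONO.sD (nxs s x) (List.replicate k x) := by
    rw [List.replicate_succ, sD_cons]
  rw [e6, e, gM_append, ← Matrix.mulVec_mulVec, gM_one, e2]
  have hD := DG_rep x k _ hn
  rcases Nat.eq_zero_or_pos k with hk | hk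
  · subst hk
    rw [Nat.zero_min] at a2
    exact h3 _ hD _ a2
  · have e3 : decide (1 ≤ k) = true := decide_eq_true hk
    rw [e3]
    refine h4 _ hD _ (min_le_right _ _) ?_ _ a2
    omega

end Pool.Agent.Helper57.U2
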