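import Pool.Agent.Helper57.U2.C
import Pool.Agent.Helper81.MIT.Top
import Pool.Agent.Helper39.CT.NFG

/-!
Row U2 (MP_c75db0): the typed program of a near cell with twin states covers everything; from the
results of its tests at a point to the certificate of the point.
-/

set_option autoImplicit false
noncomputable section
namespace Pool.Agent.Helper57.U2

open Pool.Agent.Helper81.MIT
open Pool.Agent.Helper86.CX hiding gM
open Pool.Agent.Helper86.CT (LT2)
open Pool.Agent.Helper6.MONO (V3 RV2 kk mm RMb zw LNI_mm Y0)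
open Pool.Agent.Helper6.MONO.QTR (V0 e0)
open Pool.Agent.Helper21.SUP (GS DG gM DG_nx)
open Pool.Agent.Helper21.SUP renaming nx → nxs
open Pool.Agent.Helper39.SLT (T4 ML)
open Pool.Agent.Helper6.PRG (gsF giS gsF_giS)
open Pool.Agent.Helper6.MTC (FCert NegD)
open Pool.Agent.Helper39.NCL (WN wS wS_next)
open Pool.Agent.Helper39.NFT (Ch CBT)
open Pool.Agent.Helper48.NCT (IT hasIT hasIT_iff)
open Pool.Agent.Helper21.KRN (TProg KResT PtR)
open Complex ComplexConjugate

/-- the two numberings of the forms -/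
def kb (kf kr : ℕ → T4 → ℕ) (i : Bool) : ℕ → T4 → ℕ := bif i then kr else kf

/-- the form of a twin state -/
def KU (kf kr : ℕ → T4 → ℕ) (p q r : ℕ) (K : ℕ → Hm ℝ) (i : Bool) (s : GS) (T : T4) : Hm ℝ :=
  K (kE (kb kf kr i) p q r s T)

/-- all pairs (type, twin index) of a state whose last star has order `M` -/
def allTJ (M : ℕ) (P : T4 → Bool → Bool) : Bool :=
  ((tysT M).all fun T => P T false) && (P T4.two true && P T4.three true)

/-- inclusion of forms -/
def incl (il : List IT) (k k' : ℕ) : Bool := k == k' || hasIT il k k'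

variable {p q r : ℕ} {kf kr : ℕ → T4 → ℕ} {BE BO : List ℕ} {G : TProg} {il : List IT}

theorem allTJ_at {M : ℕ} {P : T4 → Bool → Bool} (h : allTJ M P = true) {T : T4} {i : Bool}
    (hT : T.ok M) (hi : TJ T i) : P (cut M T) i = true := by
  unfold allTJ at h
  rw [Bool.and_eq_true, Bool.and_eq_true, List.all_eq_true] at h
  obtain ⟨h1, h2, h3⟩ := h
  cases i with
  | false => exact h1 _ (cut_mem hT)
  | true =>
    rcases hi rfl with rfl | rfl
    · rw [Pool.Agent.Helper81.MIT.cut_two]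
      exact h2
    · rw [Pool.Agent.Helper81.MIT.cut_three]
      exact h3

theorem allTJ_rep (M : ℕ) (P : T4 → Bool → Bool) : allTJ (rep M) P = allTJ M P := by
  unfold allTJ
  rw [tysT_rep]

/-! ### the cover -/

/-- the runs of at least four letters -/
def cov4U (kf kr : ℕ → T4 → ℕ) (p q r : ℕ) (BE BO : List ℕ) (G : TProg) (i : ℕ) : Bool :=
  (msT (mm p q r (gsF i).1 (gsF i).2.1)).all fun m =>
    if 4 ≤ m then allTJ (ML p q r (gsF i)) fun T j =>
      hasRun p q r BE BO G (gsF i) m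
        (kf (giS (nxs (gsF i) m)) (cut (mm p q r (gsF i).1 (gsF i).2.1)
          (T4.next (mm p q r (gsF i).1 (gsF i).2.1) m))) (kb kf kr j i T) else true

/-- the first run of a block of `x` letters -/
def cov1U (x : ℕ) (X : T4) (kf kr : ℕ → T4 → ℕ) (p q r : ℕ) (BE BO : List ℕ) (G : TProg) (i : ℕ)
    (n : ℕ) : Bool :=
  allTJ (ML p q r (gsF i)) fun T j =>
    if T.low (ML p q r (gsF i)) ≤ x ∧ T ≠ X then
      hasRun p q r BE BO G (gsF i) x n (kb kf kr j i T) else true

/-- a wall -/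
def covWU (kf kr : ℕ → T4 → ℕ) (p q r : ℕ) (BE BO : List ℕ) (G : TProg) (il : List IT) (W : WN)
    (i : ℕ) : Bool :=
  cov1U 3 T4.three kf kr p q r BE BO G i (kf (giS (nxs (gsF i) 3)) T4.three) &&
    (if W.f = true then
      (if i < 3 then
        incl il W.e (kf i T4.three) && (incl il (kr i T4.three) W.x &&
          (hasRun p q r BE BO G (gsF i) 3 (kr (giS (nxs (gsF i) 3)) T4.three) W.x &&
            hasRun p q r BE BO G (gsF i) 3 (kr (giS (nxs (gsF i) 3)) T4.three) W.e))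
      else
        hasRun p q r BE BO G (gsF i) 3 (kr (giS (nxs (gsF i) 3)) T4.three) (kf i T4.three) &&
          hasRun p q r BE BO G (gsF i) 3 W.e (kf i T4.three))
    else
      hasRun p q r BE BO G (gsF i) 3 (kr (giS (nxs (gsF i) 3)) T4.three) (kf i T4.three) &&
        hasRun p q r BE BO G (gsF i) 3 (kr (giS (nxs (gsF i) 3)) T4.three) (kr i T4.three))

/-- a chain for the runs of `x` letters -/
def covCU (x : ℕ) (X : T4) (kf kr : ℕ → T4 → ℕ) (p q r : ℕ) (BE BO : List ℕ) (G : TProg)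
    (il : List IT) (c : Ch) (i : ℕ) : Bool :=
  cov1U x X kf kr p q r BE BO G i (c.fn 0 (giS (nxs (gsF i) x))) &&
    (incl il (kf i X) (c.fn 0 i) &&
      (List.range (c.S + 1)).all fun j =>
        hasRun p q r BE BO G (gsF i) x (c.fn (min (j + 1) c.S) (giS (nxs (gsF i) x))) (c.fn j i) &&
          (decide (j = 0 ∧ c.S ≠ 0) || incl il (kr i X) (c.fn j i)))

/-- the single tests of the forms -/
def statU (kx : ℕ → T4 → ℕ) (a b c : Lb) (G : TProg) (sl : List ℕ) (le : List LT2) : Bool :=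
  (List.range 6).all fun i => covRX kx a.rp b.rp c.rp G i && (covPX kx a.rp b.rp c.rp G i &&
    (covTX kx a.rp b.rp c.rp sl i && covLX kx a b c le i))

/-- everything except the blocks of two and three letters -/
def modU0 (kf kr : ℕ → T4 → ℕ) (a b c : Lb) (BE BO : List ℕ) (G : TProg) (sl : List ℕ)
    (le : List LT2) : Bool :=
  brOK BE BO && (statU kf a b c G sl le && (statU kr a b c G sl le &&
    (List.range 6).all fun i => cov4U kf kr a.rp b.rp c.rp BE BO G i))

/-- the three walls -/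
def wallU (kf kr : ℕ → T4 → ℕ) (a b c : Lb) (W0 W1 W2 : WN) (BE BO : List ℕ) (G : TProg)
    (il : List IT) : Bool :=
  (List.range 6).all fun i => covWU kf kr a.rp b.rp c.rp BE BO G il (wS W0 W1 W2 i) i

/-- a chain at all states -/
def chnU (x : ℕ) (X : T4) (kf kr : ℕ → T4 → ℕ) (a b c : Lb) (cx : Ch) (BE BO : List ℕ) (G : TProg)
    (il : List IT) : Bool :=
  (List.range 6).all fun i => covCU x X kf kr a.rp b.rp c.rp BE BO G il cx i

/-! ### from the cover to the forms -/

section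

variable {z : ℂ} {K : ℕ → Hm ℝ}

theorem incl_of (hI : ∀ x ∈ il, ∀ y ∈ x.s, ∀ v, 0 < ev (K y.k) v → 0 < ev (K x.k) v) {k k' : ℕ}
    (h : incl il k k' = true) {v : Fin 3 → ℂ} (hv : 0 < ev (K k') v) : 0 < ev (K k) v := by
  unfold incl at h
  rw [Bool.or_eq_true, beq_iff_eq] at h
  rcases h with h | h
  · rw [h]
    exact hv
  · obtain ⟨x, hx, hk, y, hy, hk'⟩ := hasIT_iff h
    rw [← hk]
    rw [← hk'] at hv
    exact hI x hx y hy v hv

/-- the first runs -/
theorem fst_of {x : ℕ} {X : T4} (hX : ∀ {M : ℕ} {T : T4}, cut M T = X → T = X)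
    (hp : 3 ≤ p) (hq : 3 ≤ q) (hr : 3 ≤ r) {s : GS} (hs : DG s) {n : ℕ}
    (h : cov1U x X kf kr (rep p) (rep q) (rep r) BE BO G (giS s) n = true) {T : T4} {i : Bool}
    (hT : T.ok (ML p q r s)) (hi : TJ T i) (hl : T.low (ML p q r s) ≤ x) (hT2 : T ≠ X) :
    hasRun (rep p) (rep q) (rep r) BE BO G s x n (kE (kb kf kr i) p q r s T) = true := by
  obtain ⟨e, -⟩ := gsF_giS s hs
  have hM3 : 3 ≤ ML p q r s := LNI_mm hp hq hr _ _ (fun e => hs.2.2 e.symm)
  unfold cov1U at h
  rw [e, ML_rep p q r hs, allTJ_rep] at h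
  have h5 := allTJ_at h hT hi
  rw [low_rep _ hM3, if_pos ⟨(cut_low T).trans hl, fun h => hT2 (hX h)⟩] at h5
  exact h5

/-- the runs of at least four letters -/
theorem four_of (hp : 3 ≤ p) (hq : 3 ≤ q) (hr : 3 ≤ r) {s : GS} (hs : DG s)
    (h : cov4U kf kr (rep p) (rep q) (rep r) BE BO G (giS s) = true) {T : T4} {i : Bool}
    (hT : T.ok (ML p q r s)) (hi : TJ T i) {m : ℕ} (h4 : 4 ≤ m) (hm : m ≤ mm p q r s.1 s.2.1) :
    hasRun (rep p) (rep q) (rep r) BE BO G s m
      (kE kf p q r (nxs s m) (T4.next (mm p q r s.1 s.2.1) m)) (kE (kb kf kr i) p q r s T) = true := by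
  obtain ⟨e, -⟩ := gsF_giS s hs
  have hM3' : 3 ≤ mm p q r s.1 s.2.1 := LNI_mm hp hq hr _ _ hs.1
  unfold cov4U at h
  rw [e, mm_rep p q r _ _ hs.1, msT_rep, List.all_eq_true] at h
  have h5 := h _ (cutm_mem (by omega) hm)
  have h4' : 4 ≤ cutm (mm p q r s.1 s.2.1) m := by
    unfold cutm
    split_ifs
    · omega
    · exact h4
  rw [if_pos h4', ML_rep p q r hs, allTJ_rep] at h5
  have h6 := allTJ_at h5 hT hi
  rw [cut_next hM3' (by omega)] at h6
  have hpar : nxs s (cutm (mm p q r s.1 s.2.1) m) = nxs s m := by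
    unfold cutm
    split_ifs
    · exact nxs_par s (by omega)
    · rfl
  have hML : ML p q r (nxs s m) = mm p q r s.1 s.2.1 :=
    Pool.Agent.Helper39.SLT.ML_nx (p := p) (q := q) (r := r) s m
  have h7 := hasRun_cutm (p := rep p) (q := rep q) (r := rep r) BE BO G s m
    (kE kf p q r (nxs s m) (T4.next (mm p q r s.1 s.2.1) m)) (kE (kb kf kr i) p q r s T)
  rw [mm_rep p q r _ _ hs.1, cutm_rep] at h7
  rw [← h7]
  unfold kE
  rw [hML]
  rw [hpar] at h6
  exact h6

theorem kE_two (kx : ℕ → T4 → ℕ) (p q r : ℕ) (s : GS) : kE kx p q r s T4.two = kx (giS s) T4.two := by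
  unfold kE
  rw [Pool.Agent.Helper81.MIT.cut_two]

theorem kE_three (kx : ℕ → T4 → ℕ) (p q r : ℕ) (s : GS) :
    kE kx p q r s T4.three = kx (giS s) T4.three := by
  unfold kE
  rw [Pool.Agent.Helper81.MIT.cut_three]

/-- THE RUNS OF TWO OR THREE LETTERS THROUGH A CHAIN -/
theorem hxU_of_ch {x : ℕ} {X : T4} (hX : ∀ {M : ℕ} {T : T4}, cut M T = X → T = X)
    (hkE : ∀ (kx : ℕ → T4 → ℕ) (s : GS), kE kx p q r s X = kx (giS s) X) (x2 : 2 ≤ x)
    (x3 : x ≤ 3) (hp : 3 ≤ p) (hq : 3 ≤ q) (hr : 3 ≤ r) (hz : z ≠ 0) (hz1 : z + 1 ≠ 0)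
    (hK : KResT K (kR p q r) z G) (hbr : brOK BE BO = true) {c : Ch}
    (hc : ∀ i < 6, covCU x X kf kr (rep p) (rep q) (rep r) BE BO G il c i = true)
    (hI : ∀ x ∈ il, ∀ y ∈ x.s, ∀ v, 0 < ev (K y.k) v → 0 < ev (K x.k) v) :
    HXU p q r (zw z) (KU kf kr p q r K) x X := by
  have h3m : ∀ s, DG s → 3 ≤ mm p q r s.1 s.2.1 := fun s h => LNI_mm hp hq hr _ _ h.1
  have hR : ∀ {s : GS}, DG s → ∀ {k k' : ℕ},
      hasRun (rep p) (rep q) (rep r) BE BO G s x k k' = true → ∀ v : Fin 3 → ℂ,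
        0 < ev (K k') v → 0 < ev (K k) ((RMb p q r s x (zw z)).mulVec v) :=
    fun {s} h {k k'} hb v hv => run_ofT hp hq hr hbr hz hz1 hK h x2 (x3.trans (h3m s h)) hb v hv
  have at' : ∀ s, DG s →
      cov1U x X kf kr (rep p) (rep q) (rep r) BE BO G (giS s) (c.fn 0 (giS (nxs s x))) = true ∧
      incl il (kf (giS s) X) (c.fn 0 (giS s)) = true ∧ ∀ j, j ≤ c.S →
        hasRun (rep p) (rep q) (rep r) BE BO G s x (c.fn (min (j + 1) c.S) (giS (nxs s x)))
          (c.fn j (giS s)) = true ∧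
        ((j = 0 ∧ c.S ≠ 0) ∨ incl il (kr (giS s) X) (c.fn j (giS s)) = true) := by
    intro s hs
    obtain ⟨e, hi⟩ := gsF_giS s hs
    have h3 := hc (giS s) hi
    unfold covCU at h3
    rw [e, Bool.and_eq_true, Bool.and_eq_true, List.all_eq_true] at h3
    refine ⟨h3.1, h3.2.1, fun j hj => ?_⟩
    have h5 := h3.2.2 j (List.mem_range.2 (by omega))
    rw [Bool.and_eq_true, Bool.or_eq_true, decide_eq_true_eq] at h5
    exact h5
  refine hxU_of_chain (S := c.S) (F := fun j s => K (c.fn j (giS s))) ?_ ?_ ?_ ?_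
  · intro s hs T i hT hi hl hT2 v hv
    exact hR hs (fst_of hX hp hq hr hs (at' s hs).1 hT hi hl hT2) v hv
  · intro s hs j hj v hv
    exact hR hs ((at' s hs).2.2 j hj).1 v hv
  · intro s hs v hv
    show 0 < ev (K (kE kf p q r s X)) v
    rw [hkE]
    exact incl_of hI (at' s hs).2.1 hv
  · intro s hs j hj h1 v hv
    show 0 < ev (K (kE kr p q r s X)) v
    rw [hkE]
    rcases ((at' s hs).2.2 j hj).2 with h2 | h2
    · omega
    · exact incl_of hI h2 hv

/-- THE THREE WALLS -/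
theorem hxU_of_wall (hp : 3 ≤ p) (hq : 3 ≤ q) (hr : 3 ≤ r) (hz : z ≠ 0) (hz1 : z + 1 ≠ 0)
    (hK : KResT K (kR p q r) z G) (hbr : brOK BE BO = true) {W0 W1 W2 : WN}
    (hc : ∀ i < 6, covWU kf kr (rep p) (rep q) (rep r) BE BO G il (wS W0 W1 W2 i) i = true)
    (hI : ∀ x ∈ il, ∀ y ∈ x.s, ∀ v, 0 < ev (K y.k) v → 0 < ev (K x.k) v)
    (hfam : ∀ s, DG s → giS s < 3 → (wS W0 W1 W2 (giS s)).f = true → ∀ m : ℕ, ∀ v,
      0 < ev (K (wS W0 W1 W2 (giS s)).e) v → 0 < ev (K (wS W0 W1 W2 (giS s)).x)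
        ((gM (RMb p q r) s (List.replicate 2 3) (zw z) ^ (m + 1)).mulVec v)) :
    HXU p q r (zw z) (KU kf kr p q r K) 3 T4.three := by
  have h3m : ∀ s, DG s → 3 ≤ mm p q r s.1 s.2.1 := fun s h => LNI_mm hp hq hr _ _ h.1
  have hR : ∀ {s : GS}, DG s → ∀ {k k' : ℕ},
      hasRun (rep p) (rep q) (rep r) BE BO G s 3 k k' = true → ∀ v : Fin 3 → ℂ,
        0 < ev (K k') v → 0 < ev (K k) ((RMb p q r s 3 (zw z)).mulVec v) :=
    fun {s} h {k k'} hb v hv => run_ofT hp hq hr hbr hz hz1 hK h (by norm_num) (h3m s h) hb v hv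
  have at' : ∀ s, DG s → covWU kf kr (rep p) (rep q) (rep r) BE BO G il
      (wS W0 W1 W2 (giS s)) (giS s) = true := fun s hs => hc _ (gsF_giS s hs).2
  have eF : ∀ s, KU kf kr p q r K false s T4.three = K (kf (giS s) T4.three) := by
    intro s
    show K (kE kf p q r s T4.three) = _
    rw [kE_three]
  have eT : ∀ s, KU kf kr p q r K true s T4.three = K (kr (giS s) T4.three) := by
    intro s
    show K (kE kr p q r s T4.three) = _
    rw [kE_three]
  refine hxU_of ?_ (WallU.rep (f := fun s => (wS W0 W1 W2 (giS s)).f)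
    (E := fun s => K (wS W0 W1 W2 (giS s)).e) (Z := fun s => K (wS W0 W1 W2 (giS s)).x) ?_)
  · intro s hs T i hT hi hl hT2 v hv
    have h := at' s hs
    unfold covWU at h
    rw [Bool.and_eq_true, (gsF_giS s hs).1] at h
    rw [eF]
    exact hR hs (fst_of (fun h => Pool.Agent.Helper48.NCT.cut_three h) hp hq hr hs h.1 hT hi hl
      hT2) v hv
  · have wf : ∀ s, DG s → (wS W0 W1 W2 (giS s)).f = true → giS s < 3 →
        incl il (wS W0 W1 W2 (giS s)).e (kf (giS s) T4.three) = true ∧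
        incl il (kr (giS s) T4.three) (wS W0 W1 W2 (giS s)).x = true ∧
        hasRun (rep p) (rep q) (rep r) BE BO G s 3 (kr (giS (nxs s 3)) T4.three)
          (wS W0 W1 W2 (giS s)).x = true ∧
        hasRun (rep p) (rep q) (rep r) BE BO G s 3 (kr (giS (nxs s 3)) T4.three)
          (wS W0 W1 W2 (giS s)).e = true := by
      intro s hs hf hb
      have h := at' s hs
      unfold covWU at h
      rw [(gsF_giS s hs).1, if_pos hf, if_pos hb] at h
      simp only [Bool.and_eq_true] at h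
      exact h.2
    have wn : ∀ s, DG s → (wS W0 W1 W2 (giS s)).f = true → ¬ giS s < 3 →
        hasRun (rep p) (rep q) (rep r) BE BO G s 3 (kr (giS (nxs s 3)) T4.three)
          (kf (giS s) T4.three) = true ∧
        hasRun (rep p) (rep q) (rep r) BE BO G s 3 (wS W0 W1 W2 (giS s)).e
          (kf (giS s) T4.three) = true := by
      intro s hs hf hb
      have h := at' s hs
      unfold covWU at h
      rw [(gsF_giS s hs).1, if_pos hf, if_neg hb] at h
      simp only [Bool.and_eq_true] at h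
      exact h.2
    have ws : ∀ s, DG s → (wS W0 W1 W2 (giS s)).f = false →
        hasRun (rep p) (rep q) (rep r) BE BO G s 3 (kr (giS (nxs s 3)) T4.three)
          (kf (giS s) T4.three) = true ∧
        hasRun (rep p) (rep q) (rep r) BE BO G s 3 (kr (giS (nxs s 3)) T4.three)
          (kr (giS s) T4.three) = true := by
      intro s hs hf
      have h := at' s hs
      unfold covWU at h
      rw [(gsF_giS s hs).1, if_neg (by rw [hf]; decide)] at h
      simp only [Bool.and_eq_true] at h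
      exact h.2
    refine ⟨?_, ?_, ?_, ?_, ?_, ?_, ?_, ?_⟩
    · intro s hs
      rw [wS_next s hs]
    · intro s hs hf v hv
      rw [eF] at hv
      rw [eT]
      exact hR hs (ws s hs hf).1 v hv
    · intro s hs hf v hv
      rw [eT] at hv
      rw [eT]
      exact hR hs (ws s hs hf).2 v hv
    · intro s hs hf hb v hv
      rw [eF] at hv
      exact incl_of hI (wf s hs hf hb).1 hv
    · intro s hs hf hb v hv
      rw [eF] at hv
      rw [eT]
      refine ⟨hR hs (wn s hs hf hb).1 v hv, ?_⟩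
      rw [wS_next s hs]
      exact hR hs (wn s hs hf hb).2 v hv
    · intro s hs hf hb v hv
      rw [eT, eT]
      exact ⟨incl_of hI (wf s hs hf hb).2.1 hv, hR hs (wf s hs hf hb).2.2.1 v hv⟩
    · intro s hs hf hb v hv
      rw [eT]
      exact hR hs (wf s hs hf hb).2.2.2 v hv
    · intro s hs hf hb m v hv
      exact hfam s hs hb hf m v hv

end

end Pool.Agent.Helper57.U2
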